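import Pool.Agent.Helper50.CT.Goals

set_option autoImplicit false

open Set Filter Topology

namespace Pool.Agent.Helper55.CT

open Pool.Agent.Helper50.CT

theorem act_joined {n : ℕ} {X T : Type} [MetricSpace X] [MetricSpace T]
    [AddAction (Fin n → ℤ) X] {π : X → T} (hc : Cov n X T π) {p : X} {t : ℝ}
    {x y : X} (k : Fin n → ℤ) (h : JoinedIn (Up π p t) x y) :
    JoinedIn (Up π p t) (k +ᵥ x) (k +ᵥ y) := by
  have hiso : Isometry (fun z : X => k +ᵥ z) :=
    Isometry.of_dist_eq (fun a b => hc.isom k a b)
  obtain ⟨γ, hγ⟩ := h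
  refine ⟨γ.map hiso.continuous, fun s => ?_⟩
  have h1 := hγ s
  simp only [Up, Set.mem_setOf_eq] at h1
  simp only [Path.map_coe, Function.comp_apply, Up, Set.mem_setOf_eq]
  rw [hc.inv]
  exact h1

theorem goalBG : StmtBG := by
  intro n X T _ _ _ π hc p q t
  refine ⟨fun hq => ?_, fun x k hx hk => ?_, fun x y k h => act_joined hc k h⟩
  · refine ⟨{ carrier := {k | JoinedIn (Up π p t) q (k +ᵥ q)}
              zero_mem' := ?_
              add_mem' := ?_
              neg_mem' := ?_ }, fun k => Iff.rfl⟩
    · intro a b ha hb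
      simp only [Set.mem_setOf_eq] at ha hb ⊢
      have h1 := act_joined hc a hb
      rw [← add_vadd] at h1
      exact ha.trans h1
    · simp only [Set.mem_setOf_eq, zero_vadd]
      exact JoinedIn.refl hq
    · intro a ha
      simp only [Set.mem_setOf_eq] at ha ⊢
      have h1 := act_joined hc (-a) ha
      rw [← add_vadd, neg_add_cancel, zero_vadd] at h1
      exact h1.symm
  · exact hx.symm.trans (hk.trans (act_joined hc k hx))

end Pool.Agent.Helper55.CT
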